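import Mathlib
import Pool.Agent.Helper7.LK.ZeroP

/-!
# Values are generic on cells where only the variables that occur need large sides
-/

set_option autoImplicit false

namespace Pool.Agent.Helper95.LKX

open Finset Pool.Agent.Helper95.LK Pool.Agent.Helper7.LK
open Pool.Agent.Helper22.ETModel (E RForm rev tk te sT eval_sT totalDegree_sT sum_te
  totalDegree_sub_le' tk_mem tk_inj)
open Pool.Agent.Helper22.EP (eval_aeval totalDegree_aeval_le)

/-- Schwartz-Zippel on a product of nonempty finite sets; only the sides of the variables that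
occur have to be large. -/
theorem card_zero_boxX {ι : Type*} [Fintype ι] [DecidableEq ι] (P : MvPolynomial ι ℝ) (hP : P ≠ 0)
    (S : ι → Finset ℝ) (hne : ∀ i, (S i).Nonempty) (H : ℕ) (hS : ∀ i ∈ P.vars, H ≤ (S i).card) :
    ((Fintype.piFinset S).filter fun f => MvPolynomial.eval f P = 0).card * H ≤
      P.totalDegree * ∏ i, (S i).card := by
  classical
  rcases Nat.eq_zero_or_pos H with hH | hH
  · subst hH; simp
  set N := Fintype.card ι with hN
  set e := Fintype.equivFin ι with he
  set p' := MvPolynomial.rename e P with hp'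
  have hp0 : p' ≠ 0 := by
    intro h
    apply hP
    apply MvPolynomial.rename_injective e e.injective
    rw [map_zero]; exact h
  have h1 := MvPolynomial.schwartz_zippel_sup_sum hp0 (fun k => S (e.symm k))
  have hSpos : ∀ i, 0 < (S i).card := fun i => Finset.card_pos.2 (hne i)
  have h2 : ((Fintype.piFinset S).filter fun f => MvPolynomial.eval f P = 0).card ≤
      ((Fintype.piFinset fun k : Fin N => S (e.symm k)).filter
        fun f => MvPolynomial.eval f p' = 0).card := by
    apply Finset.card_le_card_of_injOn (fun f => fun k => f (e.symm k))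
    · intro f hf
      rw [Finset.mem_coe, mem_filter, Fintype.mem_piFinset] at hf
      rw [Finset.mem_coe, mem_filter, Fintype.mem_piFinset]
      refine ⟨fun k => hf.1 _, ?_⟩
      rw [hp', MvPolynomial.eval_rename]
      have : ((fun k => f (e.symm k)) ∘ e) = f := by
        funext i; simp
      rw [this]; exact hf.2
    · intro f _ f' _ heq
      funext i
      have := congrFun heq (e i)
      simpa using this
  have h3 : p'.totalDegree ≤ P.totalDegree := MvPolynomial.totalDegree_rename_le _ _
  have hvars : ∀ s ∈ p'.support, ∀ i, s i ≠ 0 → e.symm i ∈ P.vars := by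
    intro s hs i hi
    have h : i ∈ p'.vars := (MvPolynomial.mem_vars_iff_mem_support i).2 ⟨s, hs, Finsupp.mem_support_iff.2 hi⟩
    have h' := MvPolynomial.vars_rename (⇑e) P h
    rw [mem_image] at h'
    obtain ⟨j, hj, rfl⟩ := h'
    simpa using hj
  have h4 : (p'.support.sup fun s => ∑ i, ((s i : ℚ≥0) / ((S (e.symm i)).card : ℚ≥0))) ≤
      (P.totalDegree : ℚ≥0) / (H : ℚ≥0) := by
    apply Finset.sup_le
    intro s hs
    have h5 : ∑ i, ((s i : ℚ≥0) / ((S (e.symm i)).card : ℚ≥0)) ≤ ∑ i, ((s i : ℚ≥0) / (H : ℚ≥0)) := by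
      apply Finset.sum_le_sum
      intro i _
      by_cases hi : s i = 0
      · rw [hi]; simp
      · have hHp : (0 : ℚ≥0) < (H : ℚ≥0) := by exact_mod_cast hH
        have hle : (H : ℚ≥0) ≤ ((S (e.symm i)).card : ℚ≥0) := by
          exact_mod_cast hS _ (hvars s hs i hi)
        gcongr
    refine h5.trans ?_
    rw [← Finset.sum_div]
    have h6 : (∑ i, (s i : ℚ≥0)) ≤ (P.totalDegree : ℚ≥0) := by
      have h7 : ∑ i, s i ≤ P.totalDegree := by
        refine le_trans ?_ ((MvPolynomial.le_totalDegree hs).trans h3)
        rw [Finsupp.sum_fintype _ _ (fun _ => rfl)]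
      exact_mod_cast h7
    gcongr
  have h5 := h1.trans h4
  have hprod : (∏ i : Fin N, ((S (e.symm i)).card : ℚ≥0)) = ((∏ i, (S i).card : ℕ) : ℚ≥0) := by
    push_cast
    exact Equiv.prod_comp e.symm fun i => ((S i).card : ℚ≥0)
  rw [hprod] at h5
  have hposP : (0 : ℚ≥0) < ((∏ i, (S i).card : ℕ) : ℚ≥0) := by
    exact_mod_cast Finset.prod_pos fun i _ => hSpos i
  have hposH : (0 : ℚ≥0) < (H : ℚ≥0) := by exact_mod_cast hH
  rw [div_le_div_iff₀ hposP hposH] at h5
  have h6 : ((Fintype.piFinset fun k : Fin N => S (e.symm k)).filter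
        fun f => MvPolynomial.eval f p' = 0).card * H ≤ P.totalDegree * ∏ i, (S i).card := by
    exact_mod_cast h5
  exact (Nat.mul_le_mul_right _ h2).trans h6

variable {m G : ℕ} (π : E m → ℤ)

/-- Schwartz-Zippel on a box of labels -/
lemma zero_boxX (C : E m → Finset (Lab G)) (hne : ∀ e, (C e).Nonempty) (H : ℕ) (P : RForm m)
    (hH : ∀ e ∈ P.vars, H ≤ (C e).card) (hP : P ≠ 0) :
    ((Fintype.piFinset C).filter fun s =>
      MvPolynomial.eval (fun e => ((π e + wv (s e) : ℤ) : ℝ)) P = 0).card * H ≤
      P.totalDegree * (Fintype.piFinset C).card := by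
  classical
  set S : E m → Finset ℝ := fun e => (C e).image (fun α => ((π e + wv α : ℤ) : ℝ)) with hS
  have hinj : ∀ e, Function.Injective fun α : Lab G => ((π e + wv α : ℤ) : ℝ) := by
    intro e α β h
    simp only [Int.cast_inj, add_right_inj] at h
    exact wv_inj h
  have hcS : ∀ e, (S e).card = (C e).card := fun e => Finset.card_image_of_injective _ (hinj e)
  have h1 := card_zero_boxX P hP S (fun e => (hne e).image _) H
    (fun e he => by rw [hcS]; exact hH e he)
  rw [Fintype.card_piFinset, ← Finset.prod_congr rfl fun e _ => hcS e]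
  refine le_trans (Nat.mul_le_mul_right _ ?_) h1
  apply Finset.card_le_card_of_injOn (fun s => fun e => ((π e + wv (s e) : ℤ) : ℝ))
  · intro s hs
    rw [Finset.mem_coe, mem_filter, Fintype.mem_piFinset] at hs
    rw [Finset.mem_coe, mem_filter, Fintype.mem_piFinset]
    refine ⟨fun e => ?_, hs.2⟩
    rw [hS, mem_image]
    exact ⟨s e, hs.1 e, rfl⟩
  · intro s _ s' _ heq
    funext e
    exact hinj e (congrFun heq e)

/-- two different polynomials rarely agree on a box, large in the directions that occur -/
lemma null_pairX (C : E m → Finset (Lab G)) (hne : ∀ e, (C e).Nonempty) (H d : ℕ)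
    {f f' : RForm m} (hH : ∀ e, e ∈ f.vars ∨ e ∈ f'.vars → H ≤ (C e).card)
    (hff : f ≠ f') (hf : f.totalDegree ≤ d) (hf' : f'.totalDegree ≤ d) :
    ((Fintype.piFinset C).filter fun s => rev (wpt π s) f = rev (wpt π s) f').card * H ≤
      d * (Fintype.piFinset C).card := by
  classical
  have h1 := zero_boxX π C hne H (f - f')
    (fun e he => hH e (mem_union.1 (MvPolynomial.vars_sub_subset f he))) (sub_ne_zero.2 hff)
  refine le_trans (le_of_eq ?_) (h1.trans (Nat.mul_le_mul_right _ (totalDegree_sub_le' hf hf')))
  congr 2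
  apply Finset.filter_congr
  intro s _
  rw [map_sub, sub_eq_zero]
  rfl

/-- the variables after elimination of the last weight of `T` -/
lemma vars_sTX (T : Pool.Agent.Helper22.ETModel.Tri m) (e : E m) :
    (sT T e).vars ⊆ insert e {tk T 0, tk T 1} := by
  classical
  unfold sT
  intro x hx
  split_ifs at hx with h
  · have h1 := MvPolynomial.vars_sub_subset _ hx
    rw [MvPolynomial.vars_neg, MvPolynomial.vars_X, MvPolynomial.vars_X, mem_union, mem_singleton,
      mem_singleton] at h1
    rw [mem_insert, mem_insert, mem_singleton]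
    exact Or.inr h1
  · rw [MvPolynomial.vars_X, mem_singleton] at hx
    rw [hx]
    exact mem_insert_self _ _

/-- two polynomials which do not agree on the hyperplane of `T` rarely agree on the planted part
of a box, large in the directions that occur -/
lemma planted_pairX (C : E m → Finset (Lab G)) (hne : ∀ e, (C e).Nonempty) (H d : ℕ)
    (T : Pool.Agent.Helper22.ETModel.Tri m)
    (hπ : π (tk T 0) + π (tk T 1) + π (tk T 2) = 0) {f f' : RForm m}
    (hH : ∀ e, e ∈ f.vars ∨ e ∈ f'.vars → H ≤ (C e).card)
    (hT : ∀ i, H ≤ (C (tk T i)).card)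
    (hf : f.totalDegree ≤ d) (hf' : f'.totalDegree ≤ d)
    (hc : ¬ ∀ w : E m → ℝ, ∑ e ∈ te T, w e = 0 → MvPolynomial.eval w f = MvPolynomial.eval w f') :
    ((Fintype.piFinset C).filter fun s => wv (s (tk T 0)) + wv (s (tk T 1)) + wv (s (tk T 2)) = 0 ∧
      rev (wpt π s) f = rev (wpt π s) f').card * (C (tk T 2)).card * H ≤
      d * (Fintype.piFinset C).card := by
  classical
  push Not at hc
  obtain ⟨w, hw, hwne⟩ := hc
  set P : RForm m := MvPolynomial.aeval (sT T) (f - f') with hP
  have hev : ∀ w : E m → ℝ, MvPolynomial.eval w P =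
      MvPolynomial.eval (fun e => if e = tk T 2 then -w (tk T 0) - w (tk T 1) else w e)
        (f - f') := by
    intro w
    rw [hP, eval_aeval]
    congr 1
    congr 1
    funext e
    exact eval_sT T w e
  have hP0 : P ≠ 0 := by
    intro h0
    have h1 := hev w
    rw [h0, map_zero] at h1
    have h2 : (fun e => if e = tk T 2 then -w (tk T 0) - w (tk T 1) else w e) = w := by
      funext e
      split_ifs with h3
      · rw [sum_te] at hw
        rw [h3]; linarith
      · rfl
    rw [h2, map_sub] at h1
    exact hwne (by linarith)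
  have hdeg : P.totalDegree ≤ d :=
    (totalDegree_aeval_le _ (totalDegree_sT T) _).trans (totalDegree_sub_le' hf hf')
  have hvars : ∀ e ∈ P.vars, H ≤ (C e).card := by
    intro e he
    have h1 : e ∈ (MvPolynomial.bind₁ (sT T) (f - f')).vars := he
    have h2 := MvPolynomial.mem_vars_bind₁ (sT T) (f - f') h1
    obtain ⟨i, hi, hie⟩ := h2
    have h3 := vars_sTX T i hie
    rw [mem_insert, mem_insert, mem_singleton] at h3
    rcases h3 with rfl | rfl | rfl
    · exact hH _ (mem_union.1 (MvPolynomial.vars_sub_subset f hi))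
    · exact hT 0
    · exact hT 1
  have h02 : tk T 0 ≠ tk T 2 := fun h => absurd (tk_inj T h) (by decide)
  have h12 : tk T 1 ≠ tk T 2 := fun h => absurd (tk_inj T h) (by decide)
  have h1 := zero_boxX π C hne H P hvars hP0
  set A := (Fintype.piFinset C).filter fun s =>
    wv (s (tk T 0)) + wv (s (tk T 1)) + wv (s (tk T 2)) = 0 ∧ rev (wpt π s) f = rev (wpt π s) f'
    with hA
  have h2 : A.card * (C (tk T 2)).card ≤ ((Fintype.piFinset C).filter fun s =>
      MvPolynomial.eval (fun e => ((π e + wv (s e) : ℤ) : ℝ)) P = 0).card := by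
    rw [← Finset.card_product]
    apply Finset.card_le_card_of_injOn (fun x => Function.update x.1 (tk T 2) x.2)
    · rintro ⟨s, α⟩ hx
      rw [Finset.mem_coe, mem_product, hA, mem_filter, Fintype.mem_piFinset] at hx
      obtain ⟨⟨hs1, hs2, hs3⟩, hα⟩ := hx
      rw [Finset.mem_coe, mem_filter, Fintype.mem_piFinset]
      refine ⟨?_, ?_⟩
      · intro e
        by_cases he : e = tk T 2
        · subst he; simpa using hα
        · simpa [Function.update_of_ne he] using hs1 e
      · rw [hev, map_sub, sub_eq_zero]
        have h3 : (fun e => if e = tk T 2 then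
            -((π (tk T 0) + wv (Function.update s (tk T 2) α (tk T 0)) : ℤ) : ℝ) -
              ((π (tk T 1) + wv (Function.update s (tk T 2) α (tk T 1)) : ℤ) : ℝ) else
            ((π e + wv (Function.update s (tk T 2) α e) : ℤ) : ℝ)) =
              fun e => ((wpt π s e : ℤ) : ℝ) := by
          funext e
          by_cases he : e = tk T 2
          · subst he
            rw [if_pos rfl, Function.update_of_ne h02, Function.update_of_ne h12]
            have h4 : ((wv (s (tk T 0)) : ℤ) : ℝ) + ((wv (s (tk T 1)) : ℤ) : ℝ) +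
                ((wv (s (tk T 2)) : ℤ) : ℝ) = 0 := by exact_mod_cast hs2
            have h5 : ((π (tk T 0) : ℤ) : ℝ) + ((π (tk T 1) : ℤ) : ℝ) +
                ((π (tk T 2) : ℤ) : ℝ) = 0 := by exact_mod_cast hπ
            unfold wpt
            push_cast
            linarith
          · rw [if_neg he, Function.update_of_ne he]
            rfl
        rw [h3]
        exact hs3
    · rintro ⟨s, α⟩ hx ⟨s', α'⟩ hx' heq
      rw [Finset.mem_coe, mem_product, hA, mem_filter, Fintype.mem_piFinset] at hx hx'
      obtain ⟨⟨hs1, hs2, hs3⟩, hα⟩ := hx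
      obtain ⟨⟨hs1', hs2', hs3'⟩, hα'⟩ := hx'
      simp only at heq hs2 hs2'
      have h3 : α = α' := by
        have := congrFun heq (tk T 2)
        simpa using this
      have h4 : ∀ e, e ≠ tk T 2 → s e = s' e := by
        intro e he
        have := congrFun heq e
        simpa [Function.update_of_ne he] using this
      have h5 : s (tk T 2) = s' (tk T 2) := by
        apply wv_inj
        rw [h4 _ h02, h4 _ h12] at hs2
        linarith
      have h6 : s = s' := by
        funext e
        by_cases he : e = tk T 2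
        · rw [he]; exact h5
        · exact h4 e he
      rw [h3, h6]
  calc A.card * (C (tk T 2)).card * H ≤ ((Fintype.piFinset C).filter fun s =>
        MvPolynomial.eval (fun e => ((π e + wv (s e) : ℤ) : ℝ)) P = 0).card * H :=
        Nat.mul_le_mul_right _ h2
    _ ≤ P.totalDegree * (Fintype.piFinset C).card := h1
    _ ≤ d * (Fintype.piFinset C).card := Nat.mul_le_mul_right _ hdeg

end Pool.Agent.Helper95.LKX
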