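import Mathlib
import Pool.Agent.Helper7.LKX.Ev
import Pool.Agent.Helper95.LKX.ZeroX

/-!
# Coincidences of values are improbable
-/

set_option autoImplicit false

namespace Pool.Agent.Helper95.LKX

open Finset Pool.Agent.Helper95.LK Pool.Agent.Helper7.LKX

section abstract

variable {E Γ : Type*} [Fintype E] [DecidableEq E] [Fintype Γ] [DecidableEq Γ]

open Classical in
/-- Events that happen at query times only. -/
theorem ev_bound (F : Filt E Γ) (Z Q : ℕ → (E → Γ) → Prop) (N D H L : ℕ) (hH : 0 < H)
    (hQ : ∀ t s s', s' ∈ (F.partAt t).box s → (Q t s' ↔ Q t s))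
    (hZQ : ∀ t s, Z t s → Q t s)
    (hZ : ∀ t s, Q t s → ∀ S ⊆ (F.partAt t).box s, (∀ s' ∈ S, Z t s') → S.card * H ≤
      N * ((F.partAt t).box s).card)
    (hD : ∀ s, ∀ S ⊆ range L, (∀ t ∈ S, Q t s) → S.card ≤ D) :
    ((univ.filter fun s => ∃ t < L, Z t s).card : ℝ) ≤
      ((N : ℝ) / H * D) * (Fintype.card (E → Γ) : ℝ) := by
  have hH0 : (0 : ℝ) < H := by exact_mod_cast hH
  have hNH : (0 : ℝ) ≤ (N : ℝ) / H := by positivity
  -- one time
  have h1 : ∀ t, ((univ.filter fun s => Z t s).card : ℝ) ≤
      (N : ℝ) / H * ((univ.filter fun s => Q t s).card : ℝ) := by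
    intro t
    set P := F.partAt t with hP
    let φ : (E → Γ) → ℝ := fun s => if Z t s then 1 else 0
    have ht := P.tower (fun _ => 1) φ (fun _ _ _ => rfl)
    simp only [one_mul] at ht
    have h2 : ∀ s, P.avg φ s ≤ if Q t s then (N : ℝ) / H else 0 := by
      intro s
      have hbox := P.card_box_pos s
      have hsum : ∑ s' ∈ P.box s, φ s' = (((P.box s).filter fun s' => Z t s').card : ℝ) := by
        simp only [φ]
        rw [← Finset.sum_filter, Finset.sum_const]
        simp
      unfold BoxPart.avg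
      rw [hsum]
      split_ifs with hq
      · rw [div_le_div_iff₀ hbox hH0]
        have := hZ t s hq _ (Finset.filter_subset (fun s' => Z t s') _)
          fun s' hs' => (mem_filter.1 hs').2
        exact_mod_cast this
      · have h3 : ((P.box s).filter fun s' => Z t s') = ∅ := by
          rw [Finset.filter_eq_empty_iff]
          intro s' hs' hz
          exact hq ((hQ t s s' hs').1 (hZQ t s' hz))
        rw [h3]
        simp
    have h3 : ((univ.filter fun s => Z t s).card : ℝ) = ∑ s, φ s := by
      simp only [φ]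
      rw [← Finset.sum_filter, Finset.sum_const]
      simp
    rw [h3, ← ht]
    refine (Finset.sum_le_sum fun s _ => h2 s).trans (le_of_eq ?_)
    rw [← Finset.sum_filter, Finset.sum_const, nsmul_eq_mul, mul_comm]
  -- all times
  have h2 : (univ.filter fun s => ∃ t < L, Z t s) ⊆
      (range L).biUnion fun t => univ.filter fun s => Z t s := by
    intro s hs
    obtain ⟨t, ht, hz⟩ := (mem_filter.1 hs).2
    exact mem_biUnion.2 ⟨t, mem_range.2 ht, mem_filter.2 ⟨mem_univ _, hz⟩⟩
  have h3 : ((univ.filter fun s => ∃ t < L, Z t s).card : ℝ) ≤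
      ∑ t ∈ range L, ((univ.filter fun s => Z t s).card : ℝ) := by
    exact_mod_cast (Finset.card_le_card h2).trans Finset.card_biUnion_le
  have h4 : ∑ t ∈ range L, ((univ.filter fun s : E → Γ => Q t s).card : ℝ) ≤
      (D : ℝ) * (Fintype.card (E → Γ) : ℝ) := by
    have h5 : ∑ t ∈ range L, (univ.filter fun s : E → Γ => Q t s).card =
        ∑ s : E → Γ, ((range L).filter fun t => Q t s).card := by
      simp only [Finset.card_filter]
      exact Finset.sum_comm
    have h6 : ∑ s : E → Γ, ((range L).filter fun t => Q t s).card ≤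
        D * Fintype.card (E → Γ) := by
      refine (Finset.sum_le_sum fun s _ => hD s _ (Finset.filter_subset (fun t => Q t s) _)
        fun t ht => (mem_filter.1 ht).2).trans (le_of_eq ?_)
      rw [Finset.sum_const, Finset.card_univ, smul_eq_mul, mul_comm]
    rw [← h5] at h6
    exact_mod_cast h6
  calc ((univ.filter fun s => ∃ t < L, Z t s).card : ℝ)
      ≤ ∑ t ∈ range L, ((univ.filter fun s => Z t s).card : ℝ) := h3
    _ ≤ ∑ t ∈ range L, (N : ℝ) / H * ((univ.filter fun s => Q t s).card : ℝ) :=
        Finset.sum_le_sum fun t _ => h1 t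
    _ = (N : ℝ) / H * ∑ t ∈ range L, ((univ.filter fun s => Q t s).card : ℝ) := by
        rw [Finset.mul_sum]
    _ ≤ (N : ℝ) / H * ((D : ℝ) * (Fintype.card (E → Γ) : ℝ)) :=
        mul_le_mul_of_nonneg_left h4 hNH
    _ = _ := by ring

open Classical in
/-- union bound over a list -/
lemma list_bound {ι α : Type*} (L : List α) (S : Finset ι) (Z : α → ι → Prop)
    (K N D : ℕ) (hL : L.length ≤ D)
    (h : ∀ f ∈ L, ∀ S' ⊆ S, (∀ g ∈ S', Z f g) → S'.card * K ≤ N)
    (hS : ∀ g ∈ S, ∃ f ∈ L, Z f g) :
    S.card * K ≤ D * N := by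
  have h1 : S ⊆ L.toFinset.biUnion fun q => S.filter fun g => Z q g := by
    intro g hg
    obtain ⟨f, hf, hz⟩ := hS g hg
    rw [mem_biUnion]
    exact ⟨f, List.mem_toFinset.2 hf, mem_filter.2 ⟨hg, hz⟩⟩
  calc _ ≤ (L.toFinset.biUnion fun q => S.filter fun g => Z q g).card * K :=
        Nat.mul_le_mul_right _ (Finset.card_le_card h1)
    _ ≤ (∑ q ∈ L.toFinset, (S.filter fun g => Z q g).card) * K :=
        Nat.mul_le_mul_right _ Finset.card_biUnion_le
    _ = ∑ q ∈ L.toFinset, (S.filter fun g => Z q g).card * K := Finset.sum_mul _ _ _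
    _ ≤ ∑ q ∈ L.toFinset, N := by
        apply Finset.sum_le_sum
        intro q hq
        exact h _ (List.mem_toFinset.1 hq) _ (Finset.filter_subset _ _)
          fun g hg => (mem_filter.1 hg).2
    _ = L.toFinset.card * N := by rw [Finset.sum_const, smul_eq_mul]
    _ ≤ D * N := Nat.mul_le_mul_right _ ((List.toFinset_card_le L).trans hL)

end abstract

open Pool.Agent.Helper22.ETModel (E RForm rev tk te Inst Query instOf flagOf pot)
open Pool.Agent.Helper22.EP (redP totalDegree_redP)
open Pool.Agent.Helper8.LK (LAlg Act)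
open Pool.Agent.Helper7.LK (Lab wv wpt plantZ indZ_eq_one)

variable {m n L R G : ℕ} (A : LAlg n L R) (h : 3 * m ≤ n) (p : Fin 3 × Fin m → ℤ)
  (ρ : Fin R → Bool) (D b K k : ℕ)

/-- the side of a variable that still occurs is large -/
lemma side_le (H t : ℕ) (hK : 0 < K) (hHK : H * K ≤ Fintype.card (Lab G)) (s : E m → Lab G)
    (e : E m) (he : ¬ badc b K ((mrun A h p ρ D b K k s t).raw e)) :
    H ≤ (((mrr A h p ρ D b K k G).filt.partAt t).C s e).card := by
  have h1 : ((mrr A h p ρ D b K k G).filt.partAt t).C s e =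
      ((mrun A h p ρ D b K k s t).raw e).1 := by
    show known b K s (mrun A h p ρ D b K k s t).raw e = _
    unfold known
    rw [if_neg he]
  rw [h1]
  by_contra hc
  apply he
  left
  have h2 := not_le.1 hc
  exact lt_of_lt_of_le (Nat.mul_lt_mul_of_pos_right h2 hK) hHK

open Classical in
theorem card_evN (H d L' : ℕ) (hH : 0 < H) (hK : 0 < K) (hHK : H * K ≤ Fintype.card (Lab G))
    (hA1 : ∀ fl ρ ans f, A.next fl ρ ans = Act.query (Query.value f) → f.totalDegree ≤ d) :
    ((univ.filter fun s : E m → Lab G => ∃ t < L', evN A h p ρ D b K k t s).card : ℝ) ≤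
      ((D ^ 2 * d : ℕ) / (H : ℝ)) * (Fintype.card (E m → Lab G) : ℝ) := by
  set F := (mrr A h p ρ D b K k G).filt with hF
  have hbox : ∀ t (s s' : E m → Lab G), s' ∈ (F.partAt t).box s →
      ∀ e, s' e ∈ known b K s (mrun A h p ρ D b K k s t).raw e := by
    intro t s s' hs' e
    exact (F.partAt t).mem_box.1 hs' e
  have hmain := ev_bound F (evN A h p ρ D b K k) (isQ A h p ρ D b K k) (D * d) D H L' hH
    (fun t s s' hs' => isQ_congr A h p ρ D b K k t (hbox t s s' hs'))
    (fun t s hz => ⟨hz.1, by obtain ⟨f, hf, _⟩ := hz.2; exact ⟨f, hf⟩⟩) ?_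
    (fun s S hS hq => (Finset.card_le_card fun t ht => mem_filter.2 ⟨hS ht, hq t ht⟩).trans
      (card_isQ_le A h p ρ D b K k s L'))
  · refine hmain.trans (le_of_eq ?_)
    push_cast
    ring
  intro t s hq S hS hSZ
  obtain ⟨_, f, hf⟩ := hq
  set st := mrun A h p ρ D b K k s t with hst
  have hdf : (redP h f).totalDegree ≤ d := (totalDegree_redP h f).trans (hA1 _ _ _ _ hf)
  have hlb := list_bound st.pol S
    (fun f' s' => redK b K (pot p) s st.raw f' ≠ redK b K (pot p) s st.raw (redP h f) ∧
      rev (wpt (pot p) s') (redK b K (pot p) s st.raw f') =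
        rev (wpt (pot p) s') (redK b K (pot p) s st.raw (redP h f)))
    H (d * ((F.partAt t).box s).card) D (length_pol_le A h p ρ D b K k s t) ?_ ?_
  · rw [mul_assoc]
    exact hlb
  · intro f' hf' S' hS' hZ'
    by_cases hne : redK b K (pot p) s st.raw f' = redK b K (pot p) s st.raw (redP h f)
    · have h0 : S' = ∅ := by
        rw [Finset.eq_empty_iff_forall_notMem]
        intro s' hs'
        exact (hZ' s' hs').1 hne
      rw [h0]
      simp
    · refine le_trans (Nat.mul_le_mul_right _ (Finset.card_le_card ?_))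
        (null_pairX (pot p) ((F.partAt t).C s) (fun e => ⟨_, (F.partAt t).mem s e⟩) H d
          (f := redK b K (pot p) s st.raw f') (f' := redK b K (pot p) s st.raw (redP h f)) ?_ hne
          ((totalDegree_redK b K (pot p) s st.raw f').trans
            (degree_pol A h p ρ D b K k hA1 s t f' hf'))
          ((totalDegree_redK b K (pot p) s st.raw _).trans hdf))
      · intro s' hs'
        rw [mem_filter]
        exact ⟨hS (hS' hs'), (hZ' s' hs').2⟩
      · intro e he
        apply side_le A h p ρ D b K k H t hK hHK s e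
        rcases he with he | he
        · exact vars_redK b K (pot p) s st.raw f' he
        · exact vars_redK b K (pot p) s st.raw _ he
  · intro s' hs'
    obtain ⟨_, f1, hf1, f', hf', hne, heq⟩ := hSZ s' hs'
    have hkn := hbox t s s' (hS hs')
    have hr := mrun_congr A h p ρ D b K k t hkn
    have ha := mact_congr A h p ρ D b K k t hkn
    have hrk := redK_congr b K (pot p) s st.raw hkn
    rw [ha, hf] at hf1
    have hff : f = f1 := by
      simpa using hf1
    subst hff
    rw [hr, ← hst] at hf' hne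
    rw [hrk] at hne
    refine ⟨f', hf', hne, ?_⟩
    have e1 := rev_redK b K (pot p) s' st.raw f'
    have e2 := rev_redK b K (pot p) s' st.raw (redP h f)
    rw [hrk] at e1 e2
    rw [e1, e2]
    exact heq

open Classical in
theorem sum_evT (H d L' : ℕ) (hH : 0 < H) (hK : 0 < K) (hHK : H * K ≤ Fintype.card (Lab G))
    (hA1 : ∀ fl ρ ans f, A.next fl ρ ans = Act.query (Query.value f) → f.totalDegree ≤ d)
    (T : Pool.Agent.Helper22.ETModel.Tri m) :
    (plantZ m G).g T * ∑ s : E m → Lab G,
        (if ∃ t < L', evT A h p ρ D b K k T t s then (plantZ m G).ind T s else 0) ≤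
      2 * (Fintype.card (Lab G) : ℝ) * ((D ^ 2 * d : ℕ) / (H : ℝ) ^ 2) *
        (Fintype.card (E m → Lab G) : ℝ) := by
  set X := plantZ m G with hX
  set F := (mrr A h p ρ D b K k G).filt with hF
  have hbox : ∀ t (s s' : E m → Lab G), s' ∈ (F.partAt t).box s →
      ∀ e, s' e ∈ known b K s (mrun A h p ρ D b K k s t).raw e := by
    intro t s s' hs' e
    exact (F.partAt t).mem_box.1 hs' e
  have hind : ∀ s, X.ind T s = 1 ↔ wv (s (tk T 0)) + wv (s (tk T 1)) + wv (s (tk T 2)) = 0 := by
    intro s
    rw [← Fin.sum_univ_three (fun i => wv (s (tk T i)))]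
    exact indZ_eq_one
  have hπ : pot p (tk T 0) + pot p (tk T 1) + pot p (tk T 2) = 0 := by
    exact Pool.Agent.Helper22.ETModel.sum_pot_tri p T
  have hmain := ev_bound F
    (fun t s => evT A h p ρ D b K k T t s ∧
      wv (s (tk T 0)) + wv (s (tk T 1)) + wv (s (tk T 2)) = 0)
    (fun t s => isQ A h p ρ D b K k t s ∧
      ∀ i, ¬ badc b K ((mrun A h p ρ D b K k s t).raw (tk T i)))
    (D * d) D (H * H) L' (Nat.mul_pos hH hH)
    (fun t s s' hs' => by
      have e1 := isQ_congr A h p ρ D b K k t (hbox t s s' hs')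
      have e2 := mrun_congr A h p ρ D b K k t (hbox t s s' hs')
      constructor
      · rintro ⟨q1, q2⟩
        exact ⟨e1.1 q1, fun i => by rw [← e2]; exact q2 i⟩
      · rintro ⟨q1, q2⟩
        exact ⟨e1.2 q1, fun i => by rw [e2]; exact q2 i⟩)
    (fun t s hz => ⟨⟨hz.1.1, by obtain ⟨f, hf, _⟩ := hz.1.2.2; exact ⟨f, hf⟩⟩, hz.1.2.1⟩) ?_
    (fun s S hS hq => (Finset.card_le_card fun t ht => mem_filter.2 ⟨hS ht, (hq t ht).1⟩).trans
      (card_isQ_le A h p ρ D b K k s L'))
  · have h1 : ∑ s : E m → Lab G,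
        (if ∃ t < L', evT A h p ρ D b K k T t s then X.ind T s else 0) =
        ((univ.filter fun s : E m → Lab G => ∃ t < L', evT A h p ρ D b K k T t s ∧
          wv (s (tk T 0)) + wv (s (tk T 1)) + wv (s (tk T 2)) = 0).card : ℝ) := by
      rw [Finset.card_filter]
      push_cast
      refine Finset.sum_congr rfl fun s _ => ?_
      by_cases h2 : wv (s (tk T 0)) + wv (s (tk T 1)) + wv (s (tk T 2)) = 0
      · rw [(hind s).2 h2]
        simp only [h2, and_true]
      · have h3 : X.ind T s = 0 := by
          rcases X.ind_01 T s with h' | h'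
          · exact h'
          · exact absurd ((hind s).1 h') h2
        rw [h3]
        simp [h2]
    rw [h1]
    have h2 : X.g T ≤ 2 * (Fintype.card (Lab G) : ℝ) := X.g_le T
    have h3 : (0 : ℝ) ≤ X.g T := X.g_nonneg T
    have h4 : ((univ.filter fun s : E m → Lab G => ∃ t < L', evT A h p ρ D b K k T t s ∧
          wv (s (tk T 0)) + wv (s (tk T 1)) + wv (s (tk T 2)) = 0).card : ℝ) ≤
        (((D * d : ℕ) : ℝ) / ((H * H : ℕ) : ℝ) * D) * (Fintype.card (E m → Lab G) : ℝ) := by
      convert hmain
    have h5 : (0 : ℝ) ≤ 2 * (Fintype.card (Lab G) : ℝ) := by positivity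
    refine (mul_le_mul h2 h4 (Nat.cast_nonneg _) h5).trans (le_of_eq ?_)
    push_cast
    ring
  intro t s hq S hS hSZ
  obtain ⟨⟨_, f, hf⟩, hnb⟩ := hq
  set st := mrun A h p ρ D b K k s t with hst
  have hdf : (redP h f).totalDegree ≤ d := (totalDegree_redP h f).trans (hA1 _ _ _ _ hf)
  have hlb := list_bound st.pol S
    (fun f' s' => (¬ ∀ w : E m → ℝ, ∑ e ∈ te T, w e = 0 →
        MvPolynomial.eval w (redK b K (pot p) s st.raw f') =
          MvPolynomial.eval w (redK b K (pot p) s st.raw (redP h f))) ∧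
      rev (wpt (pot p) s') (redK b K (pot p) s st.raw f') =
        rev (wpt (pot p) s') (redK b K (pot p) s st.raw (redP h f)))
    (H * H) (d * ((F.partAt t).box s).card) D (length_pol_le A h p ρ D b K k s t) ?_ ?_
  · rw [mul_assoc]
    exact hlb
  · intro f' hf' S' hS' hZ'
    by_cases hne : ∀ w : E m → ℝ, ∑ e ∈ te T, w e = 0 →
        MvPolynomial.eval w (redK b K (pot p) s st.raw f') =
          MvPolynomial.eval w (redK b K (pot p) s st.raw (redP h f))
    · have h0 : S' = ∅ := by
        rw [Finset.eq_empty_iff_forall_notMem]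
        intro s' hs'
        exact (hZ' s' hs').1 hne
      rw [h0]
      simp
    · have hside : ∀ i, H ≤ ((F.partAt t).C s (tk T i)).card := fun i =>
        side_le A h p ρ D b K k H t hK hHK s (tk T i) (hnb i)
      have hp := planted_pairX (pot p) ((F.partAt t).C s) (fun e => ⟨_, (F.partAt t).mem s e⟩) H d
          T hπ (f := redK b K (pot p) s st.raw f') (f' := redK b K (pot p) s st.raw (redP h f))
          (fun e he => by
            apply side_le A h p ρ D b K k H t hK hHK s e
            rcases he with he | he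
            · exact vars_redK b K (pot p) s st.raw f' he
            · exact vars_redK b K (pot p) s st.raw _ he) hside
          ((totalDegree_redK b K (pot p) s st.raw f').trans
            (degree_pol A h p ρ D b K k hA1 s t f' hf'))
          ((totalDegree_redK b K (pot p) s st.raw _).trans hdf) hne
      refine le_trans ?_ hp
      rw [← mul_assoc]
      apply Nat.mul_le_mul_right
      apply Nat.mul_le_mul _ (hside 2)
      apply Finset.card_le_card
      intro s' hs'
      rw [mem_filter]
      exact ⟨hS (hS' hs'), (hSZ s' (hS' hs')).2, (hZ' s' hs').2⟩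
  · intro s' hs'
    obtain ⟨⟨_, _, f1, hf1, f', hf', hne, heq⟩, _⟩ := hSZ s' hs'
    have hkn := hbox t s s' (hS hs')
    have hr := mrun_congr A h p ρ D b K k t hkn
    have ha := mact_congr A h p ρ D b K k t hkn
    have hrk := redK_congr b K (pot p) s st.raw hkn
    rw [ha, hf] at hf1
    have hff : f = f1 := by
      simpa using hf1
    subst hff
    rw [hr, ← hst] at hf' hne
    rw [hrk] at hne
    refine ⟨f', hf', hne, ?_⟩
    have e1 := rev_redK b K (pot p) s' st.raw f'
    have e2 := rev_redK b K (pot p) s' st.raw (redP h f)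
    rw [hrk] at e1 e2
    rw [e1, e2]
    exact heq

end Pool.Agent.Helper95.LKX
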